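import Pool.Agent.Run7.h30.Defect

/-!
# Derived invariance of Hodge numbers: fibrations with fibres of dimension at most three

Let `X`, `Y` be smooth projective complex varieties of dimension `n` with `D(X) ≃ D(Y)`, and let `L`,
`L'` be the pull-backs of ample classes by morphisms `f : X → B`, `g : Y → B` onto a projective variety
`B` of dimension `ν`, such that the equivalence commutes with `L` and `L'` (`Intertwines`): any
equivalence which is linear over `B`, or any equivalence if `K_X` or `-K_X` is semiample,
`L = ± K_X`, `L' = ± K_Y` and `B` is the Iitaka model. `PullbackAmple` collects the consequences of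
the theorems of Deligne, Lefschetz, Hodge and Riemann for the intersections of general members of
`|m L|`, and `kerDim X L j p q` is the dimension of the space of classes `x` of type `(p, q)` with
`L ^ j x = 0`.

1. If `kerDim X L j p q = kerDim Y L' j p q` for all `j + p + q ≤ n - 2` then `X` and `Y` have the same
   Hodge numbers. (In terms of the decomposition theorem: if the contributions of the perverse
   cohomology sheaves of degree less than `-2` agree, then everything agrees.)
2. In particular this holds if `L ^ k` is injective on the classes of degree `n - 3 - k`, and if the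
   kernels of `L ^ (k + 1)` on the classes of type `(p, q)`, `p + q = n - 3 - k`, have the same dimension
   for `X` and `Y`.

The conditions in 2 are satisfied if all fibres of `f` and `g` have dimension at most three. Indeed the
defect of semismallness over a proper closed subset of `B` is then at most `2`, and over `B` at
most `3`, so that `L ^ k` is injective in degree `n - 3 - k` (de Cataldo and Migliorini). The kernel
of `L ^ (k + 1)` is zero if the general fibres have dimension less than three, and otherwise it is the
primitive part of the intersection cohomology of `B`, which is the same for `X` and `Y`. Hence: the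
Hodge numbers are invariant under equivalences which are linear over a base if all fibres have
dimension at most three (elliptic fibrations, fibrations in K3 or abelian surfaces, in Calabi–Yau
threefolds, ...), and under all equivalences if `± K` is semiample and the fibres of the Iitaka
fibration have dimension at most three. For `B` a point this is the theorem for threefolds.

The starting result `MP_b4fe5e_ag.SmallDefect` is about defect at most two. The proof here is
different: the equivalence induces Mukai isometries of the quotients of `H (X)` and `H (Y)` by the
annihilators of `L ^ j` and `L' ^ j`, which are Hodge theories of varieties of dimension `n - j`, and the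
relations of `MP_b4fe5e_ag.HodgeInertia` for all `j` are solved by induction on the degree.
-/

namespace Pool.Agent.Results.MP_b4fe5e_ag.FibresOfDimensionThree

open Pool.Agent.W539.DI Pool.Agent.R929.DH Run7.h30

theorem kerDim_zero {n : ℕ} {X : KRing n} {L : X.R}
    (hX : ∀ (p q : ℤ) (k : ℕ), p + q + k + 3 = n → ∀ x ∈ X.H (p, q), L ^ k * x = 0 → x = 0)
    {j p q : ℕ} (h : j + p + q + 3 ≤ n) : kerDim X L j p q = 0 := by
  unfold kerDim
  rw [Submodule.finrank_eq_zero, Submodule.eq_bot_iff]
  intro x hx
  rw [Submodule.mem_inf, LinearMap.mem_ker, LinearMap.mulLeft_apply] at hx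
  refine hX p q (n - 3 - p - q) (by omega) x hx.1 ?_
  have e : n - 3 - p - q = (n - 3 - p - q - j) + j := by omega
  rw [e, pow_add, mul_assoc, hx.2, mul_zero]

/-- **Theorem.** -/
theorem result {n ν : ℕ} (X Y : KRing n) (L : X.R) (L' : Y.R) (Φ : FM X Y)
    (hX : PullbackAmple X L ν) (hY : PullbackAmple Y L' ν) (h : Intertwines Φ L L')
    (hL : L ^ (ν + 1) = 0) (hL' : L' ^ (ν + 1) = 0) :
    ((∀ j p q : ℕ, j + p + q + 2 ≤ n → kerDim X L j p q = kerDim Y L' j p q) →
      ∀ p q : ℤ, X.h p q = Y.h p q) ∧
    ((∀ (p q : ℤ) (k : ℕ), p + q + k + 3 = n → ∀ x ∈ X.H (p, q), L ^ k * x = 0 → x = 0) →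
      (∀ (p q : ℤ) (k : ℕ), p + q + k + 3 = n → ∀ y ∈ Y.H (p, q), L' ^ k * y = 0 → y = 0) →
      (∀ p q k : ℕ, p + q + k + 3 = n → kerDim X L (k + 1) p q = kerDim Y L' (k + 1) p q) →
      ∀ p q : ℤ, X.h p q = Y.h p q) := by
  refine ⟨fun hk p q => defect_main hX hY h hL hL' hk p q, fun h1 h2 h3 p q => ?_⟩
  refine defect_main hX hY h hL hL' (fun j p q hj => ?_) p q
  by_cases hj' : j + p + q + 3 ≤ n
  · rw [kerDim_zero h1 hj', kerDim_zero h2 hj']
  · rcases Nat.eq_zero_or_pos j with h0 | h0
    · subst h0
      have h4 : ∀ {Z : KRing n} (M : Z.R), kerDim Z M 0 p q = 0 := by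
        intro Z M
        unfold kerDim
        rw [Submodule.finrank_eq_zero, Submodule.eq_bot_iff]
        intro x hx
        rw [Submodule.mem_inf, LinearMap.mem_ker, LinearMap.mulLeft_apply, pow_zero, one_mul] at hx
        exact hx.2
      rw [h4, h4]
    · have h5 := h3 p q (j - 1) (by omega)
      have e : j - 1 + 1 = j := by omega
      rwa [e] at h5

end Pool.Agent.Results.MP_b4fe5e_ag.FibresOfDimensionThree
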