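import Pool.Agent.Run7.h30.Six

/-!
# Derived invariance of `h^{q,0}` for equivalences along fibrations with fibres of dimension `≤ 3`

Let `X`, `Y` be smooth projective complex varieties of dimension `n` with `D(X) ≃ D(Y)`, and let `L`,
`L'` be the pull-backs of ample classes by morphisms `f : X → B`, `g : Y → B` onto a variety of
dimension `ν`, such that the equivalence commutes with `L` and `L'` (`Intertwines`). For instance

* any equivalence which is linear over `B` (relative Fourier–Mukai transforms);
* any equivalence, if `K_X` or `-K_X` is semiample of Iitaka dimension `ν`: then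
  `L = ± K_X`, `L' = ± K_Y`, and `B` is the Iitaka model (the canonical rings are isomorphic).

No condition is imposed on the singular fibres. For `j ≤ ν` let `S` be the intersection of `j`
general members of `|m L|`. The image of `H (X) → H (S)`, which is the quotient of `H (X)` by the
annihilator of `L ^ j`, is the monodromy invariant part of `H (S)` (Deligne), so it has hard
Lefschetz and Hodge–Riemann (`PullbackAmple`). The proof shows that it is the Hodge theory of a
variety of dimension `n - j` (`quotK`) and that the equivalence induces a Mukai isometry of these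
quotients (`quotFM`). This gives the following theorem; `rk X L j p q` is the rank of
`L ^ j : H^{p,q} → H^{p+j,q+j}`.

1. The relations between the Hodge numbers of `X` and `Y` of the starting result
   `MP_b4fe5e_ag.HodgeInertia`, and those given by Hochschild homology, hold for the ranks of
   `L ^ j` in dimension `n - j`.
2. For `j = n - 2 - q ≤ ν` the rank of `L ^ j` on the holomorphic `q`-forms is a derived invariant.
3. If the general fibres have dimension at most `2` then all `h^{q,0}` are derived invariants. The
   same if they have dimension `3`, where one has to know that the spaces of holomorphic `q`-forms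
   which come from `B` (the `q`-forms `x` with `L ^ (ν + 1 - q) x = 0`) have the same dimension for `X`
   and `Y`; this is clear if `f` and `g` have the same base.
4. In dimension six, under the hypotheses of 3, and of the theorem on the second moment of the Hodge
   numbers in `MP_b4fe5e_ag.SemiampleFivefolds` (satisfied if `± K` is semiample, absolutely or
   relatively), `h^{1,1} - h^{2,1}` is a derived invariant, and if the numbers `h^{1,1}` (in other
   words, the second Betti numbers) agree then all Hodge numbers agree.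
-/

namespace Pool.Agent.Results.MP_b4fe5e_ag.FormsAlongFibrations

open Pool.Agent.W539.DI Pool.Agent.R929.DH Run7.h30

/-- The spaces of holomorphic `q`-forms which come from the base have the same dimension. -/
def SameBaseForms {n : ℕ} {X Y : KRing n} (L : X.R) (L' : Y.R) (ν : ℕ) : Prop :=
  ∀ q : ℕ, 1 ≤ q → q ≤ ν → lowForms X L (ν + 1 - q) q = lowForms Y L' (ν + 1 - q) q

/-- **Theorem.** -/
theorem result :
    (∀ {n ν : ℕ} (X Y : KRing n) (L : X.R) (L' : Y.R) (Φ : FM X Y), PullbackAmple X L ν →
      PullbackAmple Y L' ν → Intertwines Φ L L' →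
      (∀ j a b : ℕ, j ≤ ν → a + b + j = n →
        (∑ i ∈ Finset.range n, rk X L j (a - 1 - 2 * i) (b - 1 - 2 * i) =
          ∑ i ∈ Finset.range n, rk Y L' j (a - 1 - 2 * i) (b - 1 - 2 * i)) ∧
        (rk X L j a b + 2 * ∑ i ∈ Finset.range n, rk X L j (a - 2 - 2 * i) (b - 2 - 2 * i) =
          rk Y L' j a b + 2 * ∑ i ∈ Finset.range n, rk Y L' j (a - 2 - 2 * i) (b - 2 - 2 * i))) ∧
      (∀ (j : ℕ) (p q : ℤ) (s : Finset ℤ), j ≤ ν →
        (∀ k, k ∉ s → p + k < 0 ∨ q + k < 0 ∨ (n : ℤ) < p + k + j ∨ (n : ℤ) < q + k + j) →
        ∑ k ∈ s, rk X L j (p + k) (q + k) = ∑ k ∈ s, rk Y L' j (p + k) (q + k)) ∧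
      (∀ q : ℕ, q + 2 ≤ n → n ≤ ν + q + 2 →
        rk X L (n - 2 - q) q 0 = rk Y L' (n - 2 - q) q 0) ∧
      (n ≤ ν + 3 → (n = ν + 3 → SameBaseForms L L' ν) → ∀ q : ℤ, X.h q 0 = Y.h q 0)) ∧
    (∀ {ν : ℕ} (X Y : KRing 6) (L : X.R) (L' : Y.R) (Φ : FM X Y), PullbackAmple X L ν →
      PullbackAmple Y L' ν → Intertwines Φ L L' → 3 ≤ ν → (ν = 3 → SameBaseForms L L' ν) →
      ∀ (N : Numbers X) (N' : Numbers Y), HaveEquivalentDivisors N N' →
      X.h 1 1 + Y.h 2 1 = Y.h 1 1 + X.h 2 1 ∧
      (X.h 1 1 = Y.h 1 1 → ∀ p q : ℤ, X.h p q = Y.h p q)) :=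
  ⟨fun _ _ _ _ _ P Q h => ⟨fun _ _ _ hj hab => rk_sums P Q h hj hab,
      fun _ p q s hj hs => rk_total P Q h hj p q s hs, fun _ hq hν => rk_edge P Q h hq hν,
      fun hn hb q => forms P Q h hn hb q⟩,
    fun _ _ _ _ Φ P Q h hν hb N N' hD => six Φ
      (forms P Q h (by omega) fun h6 => hb (by omega)) (moment_eq N N' Φ hD)⟩

end Pool.Agent.Results.MP_b4fe5e_ag.FormsAlongFibrations
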