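import Pool.Agent.Run7.h604.HN.Law

/-!
# The middle Hodge number decides the derived invariance of all Hodge numbers
-/

set_option autoImplicit false

namespace Pool.Agent.Results.MP_b4fe5e_ag.MiddleHodgeNumberLaw

open Pool.Agent.Run7.h604.HN

universe u

/-- Let `C` be a class of smooth projective complex varieties which is closed under products.

(1) Derived equivalent varieties `V`, `W` of dimension `d` have the same Hodge numbers if the middle Hodge numbers
`h ^ {d, d}` of `V × V` and `W × V`, and those of `W × W` and `V × W`, agree.

(2) The following are equivalent: all Hodge numbers are derived invariants in the class; the middle Hodge number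
`h ^ {m, m}` (dimension `2 m`) is a derived invariant; it is one up to an error `O ((h ^ {m, m}) ^ (1 - δ))`, for one
`δ > 0`; it is one up to a relative error which is exponentially small in the dimension; the Hodge numbers
`h ^ {p, q}` are derived invariants up to a factor `exp (o (dim))`.

(3) The numbers `h ^ {0, q}` are derived invariants if and only if they are up to a factor `exp (o (dim))`.

(4) For varieties with trivial canonical bundle: the numbers `h ^ {0, q}` are derived invariants if and only if the
middle one (`q = m`, dimension `2 m`) is, if and only if it is up to a power saving. -/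
theorem result (C : HodgeClass.{u}) :
    (∀ V W, C.Eqv V W →
      C.h (C.prod V V) (C.dim V) (C.dim V) = C.h (C.prod W V) (C.dim V) (C.dim V) →
      C.h (C.prod W W) (C.dim V) (C.dim V) = C.h (C.prod V W) (C.dim V) (C.dim V) →
      ∀ p q, C.h V p q = C.h W p q) ∧
    [C.Invariant, C.MiddleInvariant, C.MiddlePower, C.MiddleExp, C.SubExponential].TFAE ∧
    [C.FormsInvariant, C.FormsSubExponential].TFAE ∧
    (C.TrivialCanonical → [C.FormsInvariant, C.MiddleFormsInvariant, C.MiddleFormsPower].TFAE) := by
  refine ⟨fun V W hVW h1 h2 p q => C.eq_of_pair hVW h1 h2 p q, ?_, ?_, fun hT => ?_⟩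
  · tfae_have 1 → 2 := fun h V W hVW m _ => h V W hVW m m
    tfae_have 2 → 3 := C.power_of_middle
    tfae_have 2 → 4 := C.exp_of_middle
    tfae_have 3 → 1 := C.invariant_of_power
    tfae_have 4 → 1 := C.invariant_of_exp
    tfae_have 1 → 5 := C.subExponential_of_invariant
    tfae_have 5 → 1 := C.invariant_of_subExponential
    tfae_finish
  · tfae_have 1 → 2 := C.forms_subExponential
    tfae_have 2 → 1 := C.forms_of_subExponential
    tfae_finish
  · tfae_have 1 → 2 := fun h V W hVW m _ => h V W hVW m
    tfae_have 2 → 3 := C.forms_power
    tfae_have 3 → 1 := C.forms_of_power hT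
    tfae_finish

end Pool.Agent.Results.MP_b4fe5e_ag.MiddleHodgeNumberLaw
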