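import Pool.Agent.Run7.h30.Moment

/-!
# Derived invariance of Hodge numbers: semiample canonical or anti-canonical bundle

Let `X`, `Y` be smooth projective complex varieties of dimension `n + 1` with `D(X) ≃ D(Y)`, where
the equivalence is linear over a projective variety `B` (`B` a point: any equivalence), for
morphisms `f : X → B` and `g : Y → B`, and suppose that `ω_X` or `ω_X⁻¹` is semiample relative to
`f`. Let `L_X = f^* A`, `L_Y = g^* A` for an ample line bundle `A` on `B`. For `s` of the right sign
and divisible by a fixed number, and all large `t`, the line bundles `ω_X ^ s ⊗ L_X ^ t` and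
`ω_Y ^ s ⊗ L_Y ^ t` are generated by their sections, they correspond to each other under the
equivalence, as do their sections, and the connected components of corresponding smooth divisors
`D`, `D'` have equivalent derived categories (Toda, Fourier–Mukai transforms and canonical
divisors, 2006; base change of linear equivalences). This is `HaveEquivalentDivisors`. (If
`ω_X ^ s ⊗ L_X ^ t` is trivial, the divisors are empty.)

* In all dimensions: `∑ (-1) ^ (p + q) (2 p - dim X) ^ 2 h^{p,q}` is a derived invariant. Indeed the
  Euler numbers of the divisors determine the number `K c_n (X)`, and one uses the formula of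
  Libgober and Wood.
* In dimension five all Hodge numbers are derived invariants. The relations of
  `MP_b4fe5e_ag.HodgeInertia` in dimension five leave two unknown numbers, `h^{2,0}` and `h^{1,1}`.
  In dimension four they imply `χ (𝒪_D) = χ (𝒪_D')`. Hence the polynomial `χ (ω_X ^ s ⊗ L_X ^ t)` is
  determined up to a constant, and by Serre duality it vanishes for `(s, t) = (1 / 2, 0)`; so
  `χ (𝒪_X) = χ (𝒪_Y)`, which gives `h^{2,0}`. The first part gives `h^{1,1}`.

The Iitaka dimension of `ω_X ^ (±1)` is arbitrary (in the absolute case), and the fibres of the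
morphisms are arbitrary.
-/

namespace Pool.Agent.Results.MP_b4fe5e_ag.SemiampleFivefolds

open Pool.Agent.W539.DI Run7.h30

/-- **Theorem.** -/
theorem result :
    (∀ (n : ℕ) (X Y : KRing (n + 1)) (N : Numbers X) (N' : Numbers Y), Nonempty (FM X Y) →
      HaveEquivalentDivisors N N' → moment X = moment Y) ∧
    (∀ (X Y : KRing 5) (N : Numbers X) (N' : Numbers Y), Nonempty (FM X Y) →
      HaveEquivalentDivisors N N' → X.h 1 0 = Y.h 1 0 → ∀ p q : ℤ, X.h p q = Y.h p q) :=
  ⟨fun _ _ _ N N' ⟨Φ⟩ h => moment_eq N N' Φ h, fun _ _ N N' ⟨Φ⟩ h h10 p q =>
    five_main N N' Φ h10 h p q⟩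

end Pool.Agent.Results.MP_b4fe5e_ag.SemiampleFivefolds
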